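import Pool.Agent.X86.TH.Data
import Pool.Agent.X86.TH.DefB

/-! # The rank-one convex hull can be larger than the `T₄`-convex hull -/

set_option autoImplicit false

open Set

namespace Pool.Agent.Results.MP_400093_an.HullsDiffer

open Pool.Agent.X86.TH

lemma main_eq (i : Fin 6) (a b : ℕ) (c : ℤ) (ha : (kx i : ℕ) = a) (hb : (ky i : ℕ) = b)
    (hc : U (kx i) (ky i) = c) : main i = ((a : ℝ) - 1, (b : ℝ) - 1, (c : ℝ)) := by
  unfold main
  rw [ha, hb, hc]

/-- The six points. -/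
noncomputable def K1 : Set Tri := Set.range main

/-- `f` decreases along one edge of the loop. -/
lemma edge {f : Tri → ℝ} (hf : RCConvex f) {P Q K : Tri} (hK : f K = 0) (t : ℝ) (ht : 0 ≤ t)
    (ht1 : t ≤ 1) (hr : RankOne (K - P)) (hQ : Q = P + t • (K - P)) :
    f Q ≤ (1 - t) * f P := by
  have h := (hf P (K - P) hr).2 (mem_univ 0) (mem_univ 1) (show 0 ≤ 1 - t by linarith) ht
    (by ring)
  simp only [smul_eq_mul, mul_zero, mul_one, zero_add, zero_smul, add_zero, one_smul,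
    add_sub_cancel, hK] at h
  rw [hQ]
  exact h

lemma origin_mem : ((0, 0, 0) : Tri) ∈ convRC K1 := by
  intro f hf h0
  have hm : ∀ i, f (main i) = 0 := fun i => h0 _ ⟨i, rfl⟩
  have m0 : main 0 = (4, 0, 0) := by
    rw [main_eq 0 5 1 0 (by decide) (by decide) (by decide)]; norm_num
  have m1 : main 1 = (3, 2, 0) := by
    rw [main_eq 1 4 3 0 (by decide) (by decide) (by decide)]; norm_num
  have m2 : main 2 = (1, 1, 4) := by
    rw [main_eq 2 2 2 4 (by decide) (by decide) (by decide)]; norm_num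
  have m3 : main 3 = (2, 4, 2) := by
    rw [main_eq 3 3 5 2 (by decide) (by decide) (by decide)]; norm_num
  have m4 : main 4 = (-1, 2, -1) := by
    rw [main_eq 4 0 3 (-1) (by decide) (by decide) (by decide)]; norm_num
  have m5 : main 5 = (0, -1, 0) := by
    rw [main_eq 5 1 0 0 (by decide) (by decide) (by decide)]; norm_num
  have e0 := edge hf (hm 0) (P := (0, 0, 0)) (Q := (3, 0, 0)) (3 / 4) (by norm_num) (by norm_num)
    (by rw [m0]; norm_num [RankOne]) (by rw [m0]; norm_num)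
  have e1 := edge hf (hm 1) (P := (3, 0, 0)) (Q := (3, 1, 0)) (1 / 2) (by norm_num) (by norm_num)
    (by rw [m1]; norm_num [RankOne]) (by rw [m1]; norm_num)
  have e2 := edge hf (hm 2) (P := (3, 1, 0)) (Q := (2, 1, 2)) (1 / 2) (by norm_num) (by norm_num)
    (by rw [m2]; norm_num [RankOne]) (by rw [m2]; norm_num)
  have e3 := edge hf (hm 3) (P := (2, 1, 2)) (Q := (2, 2, 2)) (1 / 3) (by norm_num) (by norm_num)
    (by rw [m3]; norm_num [RankOne]) (by rw [m3]; norm_num)
  have e4 := edge hf (hm 4) (P := (2, 2, 2)) (Q := (0, 2, 0)) (2 / 3) (by norm_num) (by norm_num)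
    (by rw [m4]; norm_num [RankOne]) (by rw [m4]; norm_num)
  have e5 := edge hf (hm 5) (P := (0, 2, 0)) (Q := (0, 0, 0)) (2 / 3) (by norm_num) (by norm_num)
    (by rw [m5]; norm_num [RankOne]) (by rw [m5]; norm_num)
  linarith

lemma rcConvex_max {f : Tri → ℝ} (hf : RCConvex f) : RCConvex (fun q => max (f q) 0) :=
  fun A C h => (hf A C h).sup (convexOn_const 0 convex_univ)

lemma G_mono {η ζ : ℝ} (h : ζ ≤ η) : G η ⊆ G ζ := by
  rintro q ⟨i, hi⟩
  refine ⟨i, le_trans ?_ hi⟩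
  unfold F V
  have : (∑ k, ∑ l, ff i ζ k l * (psi k q.1 * psi l q.2.1))
      ≤ ∑ k, ∑ l, ff i η k l * (psi k q.1 * psi l q.2.1) := by
    refine Finset.sum_le_sum fun k _ => Finset.sum_le_sum fun l _ => ?_
    refine mul_le_mul_of_nonneg_right ?_ (mul_nonneg (psi_nonneg _ _) (psi_nonneg _ _))
    unfold ff
    have hw : (0:ℝ) ≤ (w i k l : ℝ) := by exact_mod_cast w_nonneg i k l
    have := mul_le_mul_of_nonneg_right h hw
    linarith
  linarith

lemma hullB_sub {η : ℝ} (hη : 0 ≤ η) (hη1 : η ≤ 1) {A : Fin 4 → Tri} (hA : ∀ m, A m ∈ G η)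
    {q : Tri} (hq : q ∈ convRC (Set.range A)) : q ∈ G (η / 324) := by
  obtain ⟨j, hj⟩ := exists_free A
  have h0 : 0 ≤ η / 324 := by positivity
  have h1 := hq _ (rcConvex_max (rcConvex_F j h0 (by linarith))) (by
    rintro _ ⟨m, rfl⟩
    obtain ⟨i, hi⟩ := hA m
    exact max_eq_right ((F_compare i j hη (hj m)).trans hi))
  exact ⟨j, (le_max_left _ _).trans h1⟩

lemma stepB_sub {η : ℝ} (hη : 0 ≤ η) (hη1 : η ≤ 1) {S : Set Tri} (hS : S ⊆ G η) :
    stepB S ⊆ G (η / 324) := by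
  rintro q ((hq | ⟨A, hA, -, hq⟩) | ⟨A, hA, B, hB, h, hq⟩)
  · exact G_mono (div_le_self hη (by norm_num)) (hS hq)
  · exact hullB_sub hη hη1 (fun m => hS (hA m)) hq
  · exact step_sub hη hη1 hS (Or.inr ⟨A, hA, B, hB, h, hq⟩)

lemma iterB_sub {K : Set Tri} (hK : K ⊆ G 1) (n : ℕ) : iterB K n ⊆ G ((1 / 324) ^ n) := by
  induction n with
  | zero =>
    show K ⊆ G ((1 / 324) ^ 0)
    rw [pow_zero]
    exact hK
  | succ n ih =>
    have h := stepB_sub (η := (1 / 324) ^ n) (by positivity)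
      (pow_le_one₀ (by norm_num) (by norm_num)) ih
    intro q hq
    have h2 := h hq
    have e : ((1:ℝ) / 324) ^ n / 324 = (1 / 324) ^ (n + 1) := by rw [pow_succ]; ring
    rwa [e] at h2

lemma origin_not_mem : ((0, 0, 0) : Tri) ∉ convT4 K1 := by
  intro h
  obtain ⟨n, hn⟩ := mem_iUnion.mp h
  obtain ⟨j, hj⟩ := iterB_sub (K := K1) (fun q hq => K0_sub (Or.inl (Or.inl hq))) n hn
  rw [F_origin] at hj
  have h3 : (4:ℝ) ≤ (w j 1 1 : ℝ) := by exact_mod_cast (w_origin j).1
  have h4 : (0:ℝ) < (1 / 324 : ℝ) ^ n := by positivity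
  have := mul_le_mul_of_nonneg_left h3 h4.le
  linarith

/-- **The two hulls differ:** there is a six-point set `K` of upper triangular `2 × 2` matrices
and a point of its rank-one convex hull that lies in no `K⁽ⁱ⁾`. -/
theorem _root_.Pool.Agent.Results.MP_400093_an.HullsDiffer.result :
    ∃ K : Set Tri, K.Finite ∧ ∃ A ∈ convRC K, A ∉ convT4 K :=
  ⟨K1, Set.finite_range _, (0, 0, 0), origin_mem, origin_not_mem⟩

end Pool.Agent.Results.MP_400093_an.HullsDiffer
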